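import Pool.Agent.helper22.B2.StDefs

/-! # Existence of geodesics with given initial data (chart version, Picard-Lindelof) -/

set_option autoImplicit false

namespace Pool.Agent.helper58.SG

open scoped ContDiff Topology Matrix
open Matrix Set

theorem inv_cd (g : (Fin 3 → ℝ) → Matrix (Fin 3) (Fin 3) ℝ)
    (hg : ∀ i j, ContDiff ℝ (⊤ : ℕ∞) (fun x => g x i j)) (hd : ∀ x, (g x).det ≠ 0) (i l : Fin 3) :
    ContDiff ℝ (⊤ : ℕ∞) (fun x => (g x)⁻¹ i l) := by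
  have h00 := hg 0 0
  have h01 := hg 0 1
  have h02 := hg 0 2
  have h10 := hg 1 0
  have h11 := hg 1 1
  have h12 := hg 1 2
  have h20 := hg 2 0
  have h21 := hg 2 1
  have h22 := hg 2 2
  have hdet : ContDiff ℝ (⊤ : ℕ∞) (fun x => (g x).det) := by
    simp only [Matrix.det_fin_three]
    exact (((((h00.mul h11).mul h22).sub ((h00.mul h12).mul h21)).sub ((h01.mul h10).mul h22)).add
      ((h01.mul h12).mul h20)).add ((h02.mul h10).mul h21) |>.sub ((h02.mul h11).mul h20)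
  have h1 : (fun x => (g x)⁻¹ i l) = fun x => ((g x).det)⁻¹ * (g x).adjugate i l := by
    funext x
    rw [Matrix.inv_def, Ring.inverse_eq_inv', Matrix.smul_apply, smul_eq_mul]
  rw [h1]
  refine (hdet.inv hd).mul ?_
  simp only [Matrix.adjugate_fin_three]
  fin_cases i <;> fin_cases l <;>
    simp only [Fin.zero_eta, Fin.mk_one, Fin.reduceFinMk, Matrix.of_apply, Matrix.cons_val',
      Matrix.cons_val_zero, Matrix.cons_val_one, Matrix.cons_val, Matrix.cons_val_fin_one]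
  · exact (h11.mul h22).sub (h12.mul h21)
  · exact ((h01.mul h22).neg).add (h02.mul h21)
  · exact (h01.mul h12).sub (h02.mul h11)
  · exact ((h10.mul h22).neg).add (h12.mul h20)
  · exact (h00.mul h22).sub (h02.mul h20)
  · exact ((h00.mul h12).neg).add (h02.mul h10)
  · exact (h10.mul h21).sub (h11.mul h20)
  · exact ((h00.mul h21).neg).add (h01.mul h20)
  · exact (h00.mul h11).sub (h01.mul h10)

theorem fd_cd (f : (Fin 3 → ℝ) → ℝ) (hf : ContDiff ℝ (⊤ : ℕ∞) f) (v : Fin 3 → ℝ) :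
    ContDiff ℝ (⊤ : ℕ∞) (fun x => fderiv ℝ f x v) := by
  have h1 : ContDiff ℝ (⊤ : ℕ∞) (fun x => fderiv ℝ f x) :=
    hf.fderiv_right (m := (⊤ : ℕ∞)) (by simp)
  exact h1.clm_apply contDiff_const

theorem chris_cd (g : (Fin 3 → ℝ) → Matrix (Fin 3) (Fin 3) ℝ)
    (hg : ∀ i j, ContDiff ℝ (⊤ : ℕ∞) (fun x => g x i j)) (hd : ∀ x, (g x).det ≠ 0)
    (i j k : Fin 3) :
    ContDiff ℝ (⊤ : ℕ∞) (fun x => Pool.Agent.helper68.B2.chris g x i j k) := by
  unfold Pool.Agent.helper68.B2.chris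
  refine contDiff_const.mul (ContDiff.sum fun l _ => ?_)
  exact (inv_cd g hg hd i l).mul
    (((fd_cd _ (hg l k) _).add (fd_cd _ (hg l j) _)).sub (fd_cd _ (hg j k) _))

/-- the geodesic vector field on R^3 x R^3 -/
noncomputable def gvf (g : (Fin 3 → ℝ) → Matrix (Fin 3) (Fin 3) ℝ)
    (p : (Fin 3 → ℝ) × (Fin 3 → ℝ)) : (Fin 3 → ℝ) × (Fin 3 → ℝ) :=
  (p.2, fun i => -(∑ j, ∑ k, Pool.Agent.helper68.B2.chris g p.1 i j k * p.2 j * p.2 k))

theorem gvf_cd (g : (Fin 3 → ℝ) → Matrix (Fin 3) (Fin 3) ℝ)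
    (hg : ∀ i j, ContDiff ℝ (⊤ : ℕ∞) (fun x => g x i j)) (hd : ∀ x, (g x).det ≠ 0) :
    ContDiff ℝ (⊤ : ℕ∞) (gvf g) := by
  unfold gvf
  refine contDiff_snd.prodMk (contDiff_pi.2 fun i => ?_)
  refine (ContDiff.sum fun j _ => ContDiff.sum fun k _ => ?_).neg
  have h1 : ContDiff ℝ (⊤ : ℕ∞) (fun p : (Fin 3 → ℝ) × (Fin 3 → ℝ) =>
      Pool.Agent.helper68.B2.chris g p.1 i j k) :=
    (chris_cd g hg hd i j k).comp contDiff_fst
  have h2 : ∀ m : Fin 3, ContDiff ℝ (⊤ : ℕ∞) (fun p : (Fin 3 → ℝ) × (Fin 3 → ℝ) => p.2 m) :=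
    fun m => (contDiff_apply ℝ ℝ m).comp contDiff_snd
  exact (h1.mul (h2 j)).mul (h2 k)

theorem exists_geod (g : (Fin 3 → ℝ) → Matrix (Fin 3) (Fin 3) ℝ)
    (hg : ∀ i j, ContDiff ℝ (⊤ : ℕ∞) (fun x => g x i j)) (hd : ∀ x, (g x).det ≠ 0)
    (x v : Fin 3 → ℝ) :
    ∃ (e : ℝ) (c w : ℝ → Fin 3 → ℝ), 0 < e ∧ c 0 = x ∧ w 0 = v ∧
      ∀ t ∈ Set.Ioo (-e) e, HasDerivAt c (w t) t ∧
        HasDerivAt w (fun i => -(∑ j, ∑ k,
          Pool.Agent.helper68.B2.chris g (c t) i j k * w t j * w t k)) t := by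
  have h1 : ContDiffAt ℝ 1 (gvf g) (x, v) :=
    ((gvf_cd g hg hd).of_le (by exact_mod_cast le_top)).contDiffAt
  obtain ⟨α, hα0, e, he, hα⟩ :=
    h1.exists_forall_mem_closedBall_exists_eq_forall_mem_Ioo_hasDerivAt₀ 0
  refine ⟨e, fun t => (α t).1, fun t => (α t).2, he, by simp [hα0], by simp [hα0], ?_⟩
  intro t ht
  have h2 := hα t (by simpa using ht)
  exact ⟨h2.fst, h2.snd⟩

end Pool.Agent.helper58.SG
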