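import Pool.Agent.helper48.SG.SpecH

/-!
# Project sg: module H05 (square sum over a layer)
-/

set_option autoImplicit false

open MeasureTheory Set Metric Filter Topology
open scoped ENNReal NNReal ComplexConjugate

namespace Pool.Agent.SG

theorem H05 (hB09 : B09_stmt) : H05_stmt := by
  intro Γ _ A hA M hM
  obtain ⟨C, hC, h⟩ := hB09 Γ A hA M hM
  refine ⟨C * M ^ 2, by positivity, fun u t hu ht hMt => ?_⟩
  have ht1 : t ≤ 1 := by nlinarith
  have hM0 : 0 < M := by linarith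
  have h1 := h u t M hu ht ht1 hM0
  calc ∑' w, {w | t < A.Hu u w ∧ A.Hu u w ≤ M * t ∧ |A.Hu u w - t| ≤ M * A.kk w ∧
        A.kk w ≤ M * t}.indicator (fun w => A.ke w ^ 2) w
      ≤ ∑' w, ENNReal.ofReal (M * t) * {γ | A.Hu u γ ≤ 1 ∧ A.Hu u γ ≤ M * t ∧
          |A.Hu u γ - t| ≤ M * A.kk γ ∧ A.kk γ ≤ M * t}.indicator A.ke w := by
        refine ENNReal.tsum_le_tsum fun w => ?_
        by_cases hw : w ∈ {w | t < A.Hu u w ∧ A.Hu u w ≤ M * t ∧ |A.Hu u w - t| ≤ M * A.kk w ∧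
            A.kk w ≤ M * t}
        · rw [indicator_of_mem hw]
          have hw' : w ∈ {γ | A.Hu u γ ≤ 1 ∧ A.Hu u γ ≤ M * t ∧
              |A.Hu u γ - t| ≤ M * A.kk γ ∧ A.kk γ ≤ M * t} :=
            ⟨hw.2.1.trans hMt, hw.2.1, hw.2.2.1, hw.2.2.2⟩
          rw [indicator_of_mem hw', sq]
          have : A.ke w ≤ ENNReal.ofReal (M * t) := ENNReal.ofReal_le_ofReal hw.2.2.2
          gcongr
        · rw [indicator_of_notMem hw]
          exact bot_le
    _ = ENNReal.ofReal (M * t) * ∑' w, {γ | A.Hu u γ ≤ 1 ∧ A.Hu u γ ≤ M * t ∧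
          |A.Hu u γ - t| ≤ M * A.kk γ ∧ A.kk γ ≤ M * t}.indicator A.ke w := ENNReal.tsum_mul_left
    _ ≤ ENNReal.ofReal (M * t) * ENNReal.ofReal (C * M * t) := by gcongr
    _ = ENNReal.ofReal (C * M ^ 2 * t ^ 2) := by
        rw [← ENNReal.ofReal_mul (by positivity)]
        congr 1; ring

end Pool.Agent.SG
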