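import Pool.Agent.helper68.SG.SpecF

/-!
# Project sg: module F06 (surface groups of genus at least two are not solvable)
-/

set_option autoImplicit false

open MeasureTheory Set Metric Filter Topology
open scoped ENNReal NNReal ComplexConjugate commutatorElement

namespace Pool.Agent.SG

/-- images of the generators in the symmetric group on five letters. -/
def F06_f (g : ℕ) (x : Fin (g + 2) × Bool) : Equiv.Perm (Fin 5) :=
  if x = (0, false) then finRotate 5
  else if x = (1, false) then Equiv.swap 0 (finRotate 5 0) else 1

theorem F06_true (g : ℕ) (i : Fin (g + 2)) : F06_f g (i, true) = 1 := by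
  unfold F06_f
  rw [if_neg (by simp), if_neg (by simp)]

theorem F06_rel (g : ℕ) : ∀ r ∈ ({surfRel (g + 2)} : Set (FreeGroup (Fin (g + 2) × Bool))),
    FreeGroup.lift (F06_f g) r = 1 := by
  intro r hr
  rw [mem_singleton_iff.1 hr, surfRel, map_list_prod, List.map_ofFn]
  apply List.prod_eq_one
  intro x hx
  rw [List.mem_ofFn] at hx
  obtain ⟨i, rfl⟩ := hx
  simp only [Function.comp_apply, map_commutatorElement, FreeGroup.lift_apply_of, F06_true,
    commutatorElement_one_right]

theorem F06_surj (g : ℕ) :
    Function.Surjective (PresentedGroup.toGroup (F06_rel g) : SurfaceGroup (g + 2) →* _) := by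
  rw [← MonoidHom.range_eq_top, eq_top_iff,
    ← Equiv.Perm.closure_cycle_adjacent_swap (σ := finRotate 5) isCycle_finRotate
      support_finRotate 0, Subgroup.closure_le]
  intro x hx
  rcases hx with rfl | hx
  · refine ⟨PresentedGroup.of (0, false), ?_⟩
    rw [PresentedGroup.toGroup.of]
    rfl
  · rw [mem_singleton_iff.1 hx]
    refine ⟨PresentedGroup.of (1, false), ?_⟩
    rw [PresentedGroup.toGroup.of]
    unfold F06_f
    rw [if_neg (by simp), if_pos rfl]

theorem F06 : F06_stmt := by
  intro g hg h
  obtain ⟨k, rfl⟩ : ∃ k, g = k + 2 := ⟨g - 2, by omega⟩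
  have h2 : Group.IsSolvable (Equiv.Perm (Fin 5)) := by
    have := h
    exact Group.isSolvable_of_surjective (F06_surj k)
  exact Equiv.Perm.not_isSolvable_fin_5 h2

end Pool.Agent.SG
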