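import Pool.Agent.helper68.SG.SpecT

/-!
# Project sg: module T02
-/

set_option autoImplicit false

open MeasureTheory Set Metric Filter Topology
open scoped ENNReal NNReal ComplexConjugate commutatorElement

namespace Pool.Agent.SG

theorem T02_inj {G : Type} [Group G] (b : G) (τ : G →* Multiplicative ℤ)
    (hb : τ b = Multiplicative.ofAdd 1) : Function.Injective (zpowersHom G b) := by
  intro x y hxy
  have h := congrArg τ hxy
  rw [zpowersHom_apply, zpowersHom_apply, map_zpow, map_zpow, hb, ← ofAdd_zsmul, ← ofAdd_zsmul,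
    smul_eq_mul, smul_eq_mul, mul_one, mul_one, ofAdd_toAdd, ofAdd_toAdd] at h
  exact h

theorem T02_range {G : Type} [Group G] (b : G) : (zpowersHom G b).range = Subgroup.zpowers b := by
  ext x
  constructor
  · rintro ⟨k, rfl⟩
    exact ⟨Multiplicative.toAdd k, (zpowersHom_apply _ _ _).symm⟩
  · rintro ⟨k, rfl⟩
    exact ⟨Multiplicative.ofAdd k, zpowersHom_apply _ _ _⟩

theorem T02_equiv {G : Type} [Group G] (b c : G) (τ : G →* Multiplicative ℤ)
    (hb : τ b = Multiplicative.ofAdd 1) (hc : τ c = Multiplicative.ofAdd 1) :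
    ∃ φ : Subgroup.zpowers b ≃* Subgroup.zpowers c,
      ∀ k : ℤ, ((φ ⟨b ^ k, ⟨k, rfl⟩⟩ : Subgroup.zpowers c) : G) = c ^ k := by
  let e1 : Multiplicative ℤ ≃* Subgroup.zpowers b :=
    (MonoidHom.ofInjective (T02_inj b τ hb)).trans (MulEquiv.subgroupCongr (T02_range b))
  let e2 : Multiplicative ℤ ≃* Subgroup.zpowers c :=
    (MonoidHom.ofInjective (T02_inj c τ hc)).trans (MulEquiv.subgroupCongr (T02_range c))
  refine ⟨e1.symm.trans e2, fun k => ?_⟩
  have h1 : e1 (Multiplicative.ofAdd k) = ⟨b ^ k, ⟨k, rfl⟩⟩ := by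
    apply Subtype.ext
    show zpowersHom G b (Multiplicative.ofAdd k) = b ^ k
    rw [zpowersHom_apply, toAdd_ofAdd]
  rw [← h1, MulEquiv.trans_apply, MulEquiv.symm_apply_apply]
  show zpowersHom G c (Multiplicative.ofAdd k) = c ^ k
  rw [zpowersHom_apply, toAdd_ofAdd]

/-- the exponent sum of the generator `b_1`. -/
def T02_tau (g : ℕ) : FreeGroup (Gen1 g) →* Multiplicative ℤ :=
  FreeGroup.lift fun x : Gen1 g => if x.1 = (0, true) then Multiplicative.ofAdd 1 else 1

theorem T02_tau_b (g : ℕ) : T02_tau g (gn1 g 0 true) = Multiplicative.ofAdd 1 := by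
  unfold gn1
  rw [dif_pos (by simp)]
  unfold T02_tau
  rw [FreeGroup.lift_apply_of, if_pos rfl]

theorem T02_tau_W (g : ℕ) : T02_tau g (W1 g) = 1 := by
  unfold W1
  rw [map_list_prod, List.map_ofFn]
  apply List.prod_eq_one
  intro x hx
  rw [List.mem_ofFn] at hx
  obtain ⟨i, rfl⟩ := hx
  rw [Function.comp_apply, map_commutatorElement, commutatorElement_eq_one_iff_mul_comm, mul_comm]

theorem T02 : T02_stmt := by
  intro g
  refine T02_equiv _ _ (T02_tau g) (T02_tau_b g) ?_
  rw [map_mul, map_inv, T02_tau_W, T02_tau_b, inv_one, one_mul]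

end Pool.Agent.SG
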